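import Pool.Agent.Helper84.FX.StX

set_option autoImplicit false

/-!
# Project FX, module B11
-/

namespace Pool.Agent.Helper2.FX

open Set Pool.Agent.Helper84.FX Pool.Agent.Helper72.FX

noncomputable section

private def V10 (a b t r n s m x y w : ℂ) : Fin 10 → ℂ := ![a, b, t, r, n, s, m, x, y, w]

private theorem V10_eta (z : Fin 10 → ℂ) :
    V10 (z 0) (z 1) (z 2) (z 3) (z 4) (z 5) (z 6) (z 7) (z 8) (z 9) = z := by
  funext i
  fin_cases i <;> rfl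

private theorem V10_ext {z : Fin 10 → ℂ} {a b t r n s m x y w : ℂ} (h0 : a = z 0) (h1 : b = z 1)
    (h2 : t = z 2) (h3 : r = z 3) (h4 : n = z 4) (h5 : s = z 5) (h6 : m = z 6) (h7 : x = z 7)
    (h8 : y = z 8) (h9 : w = z 9) : V10 a b t r n s m x y w = z := by
  subst h0 h1 h2 h3 h4 h5 h6 h7 h8 h9
  exact V10_eta z

private theorem V10_congr {a b t r n s m x y w a' b' t' r' n' s' m' x' y' w' : ℂ} (h0 : a = a')
    (h1 : b = b') (h2 : t = t') (h3 : r = r') (h4 : n = n') (h5 : s = s') (h6 : m = m')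
    (h7 : x = x') (h8 : y = y') (h9 : w = w') :
    V10 a b t r n s m x y w = V10 a' b' t' r' n' s' m' x' y' w' := by
  subst h0 h1 h2 h3 h4 h5 h6 h7 h8 h9
  rfl

private theorem V10_cont {E : Type} [TopologicalSpace E] {S : Set E} {a b t r n s m x y w : E → ℂ}
    (h0 : ContinuousOn a S) (h1 : ContinuousOn b S) (h2 : ContinuousOn t S)
    (h3 : ContinuousOn r S) (h4 : ContinuousOn n S) (h5 : ContinuousOn s S)
    (h6 : ContinuousOn m S) (h7 : ContinuousOn x S) (h8 : ContinuousOn y S)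
    (h9 : ContinuousOn w S) :
    ContinuousOn (fun e => V10 (a e) (b e) (t e) (r e) (n e) (s e) (m e) (x e) (y e) (w e)) S := by
  refine continuousOn_pi.2 fun i => ?_
  fin_cases i
  · exact h0
  · exact h1
  · exact h2
  · exact h3
  · exact h4
  · exact h5
  · exact h6
  · exact h7
  · exact h8
  · exact h9

private theorem SM_V (a b t r n s m x y w : ℂ) : SM (V10 a b t r n s m x y w) =
    (t, s * (m * kx a b t + r * x), s * (m * ky a b t + r * y), s * (m * kz a b t + r * w)) := rfl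

private theorem EE1_V (a b t r n s m x y w : ℂ) :
    EE1 (V10 a b t r n s m x y w) = nu a b t - r * n - s * m := rfl

private theorem EE1_eq (z : Fin 10 → ℂ) :
    EE1 z = nu (z 0) (z 1) (z 2) - z 3 * z 4 - z 5 * z 6 := rfl

private theorem SM_eq (z : Fin 10 → ℂ) : SM z =
    (z 2, z 5 * (z 6 * kx (z 0) (z 1) (z 2) + z 3 * z 7),
      z 5 * (z 6 * ky (z 0) (z 1) (z 2) + z 3 * z 8),
      z 5 * (z 6 * kz (z 0) (z 1) (z 2) + z 3 * z 9)) := rfl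

private theorem nu_zero (t : ℂ) : nu 0 0 t = 0 := by
  unfold nu
  ring

private def Z2 : Set (ℂ × ℂ) := {p | p.1 ≠ 0 ∧ p.2 ≠ 0}

private def F11 (z : Fin 10 → ℂ) : (ℂ × ℂ × ℂ × ℂ) × (ℂ × ℂ) := (SM z, (z 3, z 5))

private def G11 (p : (ℂ × ℂ × ℂ × ℂ) × (ℂ × ℂ)) : Fin 10 → ℂ :=
  V10 0 0 p.1.1 p.2.1 0 p.2.2 0 (p.1.2.1 / (p.2.1 * p.2.2)) (p.1.2.2.1 / (p.2.1 * p.2.2))
    (p.1.2.2.2 / (p.2.1 * p.2.2))

private def H11 (q : ℝ × (Fin 10 → ℂ)) : Fin 10 → ℂ :=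
  V10 ((q.1 : ℂ) * q.2 0) ((q.1 : ℂ) * q.2 1) (q.2 2) (q.2 3)
    ((nu ((q.1 : ℂ) * q.2 0) ((q.1 : ℂ) * q.2 1) (q.2 2) - q.2 5 * ((q.1 : ℂ) * q.2 6)) / q.2 3)
    (q.2 5) ((q.1 : ℂ) * q.2 6)
    (((SM q.2).2.1 / q.2 5 -
      (q.1 : ℂ) * q.2 6 * kx ((q.1 : ℂ) * q.2 0) ((q.1 : ℂ) * q.2 1) (q.2 2)) / q.2 3)
    (((SM q.2).2.2.1 / q.2 5 -
      (q.1 : ℂ) * q.2 6 * ky ((q.1 : ℂ) * q.2 0) ((q.1 : ℂ) * q.2 1) (q.2 2)) / q.2 3)
    (((SM q.2).2.2.2 / q.2 5 -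
      (q.1 : ℂ) * q.2 6 * kz ((q.1 : ℂ) * q.2 0) ((q.1 : ℂ) * q.2 1) (q.2 2)) / q.2 3)

private def P11 (q : (Fin 10 → ℂ) × ℝ) : (ℂ × ℂ × ℂ × ℝ) × (ℂ × ℂ) :=
  ((q.1 0, q.1 1, q.1 2, q.2), (q.1 3, q.1 5))

private def R11 (p : (ℂ × ℂ × ℂ × ℝ) × (ℂ × ℂ)) : (Fin 10 → ℂ) × ℝ :=
  (V10 p.1.1 p.1.2.1 p.1.2.2.1 p.2.1 ((p.1.2.2.2 : ℂ) * nu p.1.1 p.1.2.1 p.1.2.2.1 / p.2.1) p.2.2
    ((1 - (p.1.2.2.2 : ℂ)) * nu p.1.1 p.1.2.1 p.1.2.2.1 / p.2.2) 0 0 0, p.1.2.2.2)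

private theorem alg1 (ρ σ x k : ℂ) (h1 : ρ ≠ 0) (h2 : σ ≠ 0) :
    σ * (0 * k + ρ * (x / (ρ * σ))) = x := by
  field_simp
  ring

private theorem alg2 (ρ σ s m k : ℂ) (h1 : ρ ≠ 0) (h2 : σ ≠ 0) :
    σ * (m * k + ρ * ((s / σ - m * k) / ρ)) = s := by
  field_simp
  ring

private theorem alg3 (ρ σ ν m : ℂ) (h1 : ρ ≠ 0) : ν - ρ * ((ν - σ * m) / ρ) - σ * m = 0 := by
  field_simp
  ring

private theorem alg4 (ρ σ m k x : ℂ) (h1 : ρ ≠ 0) (h2 : σ ≠ 0) :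
    (σ * (m * k + ρ * x) / σ - m * k) / ρ = x := by
  field_simp
  ring

private theorem sm_g (p : (ℂ × ℂ × ℂ × ℂ) × (ℂ × ℂ)) (h : p.2 ∈ Z2) : SM (G11 p) = p.1 := by
  obtain ⟨h1, h2⟩ := h
  rw [G11, SM_V, alg1 _ _ _ _ h1 h2, alg1 _ _ _ _ h1 h2, alg1 _ _ _ _ h1 h2]

private theorem ee1_g (p : (ℂ × ℂ × ℂ × ℂ) × (ℂ × ℂ)) : EE1 (G11 p) = 0 := by
  rw [G11, EE1_V, nu_zero]
  ring

private theorem sm_h (τ : ℝ) (z : Fin 10 → ℂ) (h3 : z 3 ≠ 0) (h5 : z 5 ≠ 0) :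
    SM (H11 (τ, z)) = SM z := by
  rw [H11, SM_V, alg2 _ _ _ _ _ h3 h5, alg2 _ _ _ _ _ h3 h5, alg2 _ _ _ _ _ h3 h5]
  rfl

private theorem ee1_h (τ : ℝ) (z : Fin 10 → ℂ) (h3 : z 3 ≠ 0) : EE1 (H11 (τ, z)) = 0 := by
  rw [H11, EE1_V]
  exact alg3 _ _ _ _ h3

private theorem h_zero (z : Fin 10 → ℂ) : H11 (0, z) = G11 (F11 z) := by
  rw [H11, G11, F11]
  refine V10_congr ?_ ?_ rfl rfl ?_ rfl ?_ ?_ ?_ ?_
  · simp
  · simp
  · simp [nu]
  · simp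
  · simp only [Complex.ofReal_zero, zero_mul, sub_zero]
    rw [div_div, mul_comm]
  · simp only [Complex.ofReal_zero, zero_mul, sub_zero]
    rw [div_div, mul_comm]
  · simp only [Complex.ofReal_zero, zero_mul, sub_zero]
    rw [div_div, mul_comm]

private theorem h_one (z : Fin 10 → ℂ) (h3 : z 3 ≠ 0) (h5 : z 5 ≠ 0) (he : EE1 z = 0) :
    H11 (1, z) = z := by
  rw [H11]
  simp only [Complex.ofReal_one, one_mul]
  refine V10_ext rfl rfl rfl rfl ?_ rfl rfl ?_ ?_ ?_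
  · rw [EE1_eq] at he
    rw [div_eq_iff h3]
    linear_combination he
  · rw [SM_eq]
    exact alg4 _ _ _ _ _ h3 h5
  · rw [SM_eq]
    exact alg4 _ _ _ _ _ h3 h5
  · rw [SM_eq]
    exact alg4 _ _ _ _ _ h3 h5

private theorem cont_sm (hK : StKSM) : Continuous SM := by
  obtain ⟨h1, h2, h3, -, -⟩ := hK
  have c : ∀ j : Fin 10, Continuous (fun z : Fin 10 → ℂ => z j) := fun j => continuous_apply j
  have ct : Continuous (fun z : Fin 10 → ℂ => ((z 0, z 1, z 2) : ℂ × ℂ × ℂ)) :=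
    (c 0).prodMk ((c 1).prodMk (c 2))
  refine (c 2).prodMk (Continuous.prodMk ?_ (Continuous.prodMk ?_ ?_))
  · exact (c 5).mul (((c 6).mul (h1.continuous.comp ct)).add ((c 3).mul (c 7)))
  · exact (c 5).mul (((c 6).mul (h2.continuous.comp ct)).add ((c 3).mul (c 8)))
  · exact (c 5).mul (((c 6).mul (h3.continuous.comp ct)).add ((c 3).mul (c 9)))

private theorem cont_h (hK : StKSM) (B : Set (Fin 10 → ℂ)) (hB : ∀ z ∈ B, z 3 ≠ 0 ∧ z 5 ≠ 0) :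
    ContinuousOn H11 (II ×ˢ B) := by
  have hsm := cont_sm hK
  obtain ⟨h1, h2, h3, -, h4⟩ := hK
  have hs : Continuous (fun q : ℝ × (Fin 10 → ℂ) => (q.1 : ℂ)) :=
    Complex.continuous_ofReal.comp continuous_fst
  have c : ∀ j : Fin 10, Continuous (fun q : ℝ × (Fin 10 → ℂ) => q.2 j) := fun j =>
    (continuous_apply j).comp continuous_snd
  have ct : Continuous (fun q : ℝ × (Fin 10 → ℂ) =>
      (((q.1 : ℂ) * q.2 0, (q.1 : ℂ) * q.2 1, q.2 2) : ℂ × ℂ × ℂ)) :=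
    (hs.mul (c 0)).prodMk ((hs.mul (c 1)).prodMk (c 2))
  have hsm' : Continuous (fun q : ℝ × (Fin 10 → ℂ) => SM q.2) := hsm.comp continuous_snd
  have n3 : ∀ q ∈ II ×ˢ B, q.2 3 ≠ 0 := fun q hq => (hB q.2 hq.2).1
  have n5 : ∀ q ∈ II ×ˢ B, q.2 5 ≠ 0 := fun q hq => (hB q.2 hq.2).2
  refine V10_cont (hs.mul (c 0)).continuousOn (hs.mul (c 1)).continuousOn (c 2).continuousOn
    (c 3).continuousOn ?_ (c 5).continuousOn (hs.mul (c 6)).continuousOn ?_ ?_ ?_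
  · exact ContinuousOn.div ((h4.continuous.comp ct).sub ((c 5).mul (hs.mul (c 6)))).continuousOn
      (c 3).continuousOn n3
  · exact ContinuousOn.div ((ContinuousOn.div (hsm'.snd.fst).continuousOn (c 5).continuousOn
      n5).sub ((hs.mul (c 6)).mul (h1.continuous.comp ct)).continuousOn)
      (c 3).continuousOn n3
  · exact ContinuousOn.div ((ContinuousOn.div (hsm'.snd.snd.fst).continuousOn (c 5).continuousOn
      n5).sub ((hs.mul (c 6)).mul (h2.continuous.comp ct)).continuousOn)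
      (c 3).continuousOn n3
  · exact ContinuousOn.div ((ContinuousOn.div (hsm'.snd.snd.snd).continuousOn (c 5).continuousOn
      n5).sub ((hs.mul (c 6)).mul (h3.continuous.comp ct)).continuousOn)
      (c 3).continuousOn n3

private theorem cont_g (Q : Set (ℂ × ℂ × ℂ × ℂ)) : ContinuousOn G11 (Q ×ˢ Z2) := by
  have hd : ∀ q ∈ Q ×ˢ Z2, q.2.1 * q.2.2 ≠ 0 := fun q hq => mul_ne_zero hq.2.1 hq.2.2
  have cd : Continuous (fun q : (ℂ × ℂ × ℂ × ℂ) × (ℂ × ℂ) => q.2.1 * q.2.2) :=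
    (continuous_snd.fst).mul continuous_snd.snd
  refine V10_cont continuousOn_const continuousOn_const continuous_fst.fst.continuousOn
    continuous_snd.fst.continuousOn continuousOn_const continuous_snd.snd.continuousOn
    continuousOn_const ?_ ?_ ?_
  · exact ContinuousOn.div continuous_fst.snd.fst.continuousOn cd.continuousOn hd
  · exact ContinuousOn.div continuous_fst.snd.snd.fst.continuousOn cd.continuousOn hd
  · exact ContinuousOn.div continuous_fst.snd.snd.snd.continuousOn cd.continuousOn hd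

private theorem cont_r (hK : StKSM) (P : Set (ℂ × ℂ × ℂ × ℝ)) : ContinuousOn R11 (P ×ˢ Z2) := by
  have h4 := hK.2.2.2.2
  have ct : Continuous (fun p : (ℂ × ℂ × ℂ × ℝ) × (ℂ × ℂ) => ((p.1.1, p.1.2.1, p.1.2.2.1) : ℂ × ℂ × ℂ)) :=
    continuous_fst.fst.prodMk (continuous_fst.snd.fst.prodMk continuous_fst.snd.snd.fst)
  have hr : Continuous (fun p : (ℂ × ℂ × ℂ × ℝ) × (ℂ × ℂ) => (p.1.2.2.2 : ℂ)) :=
    Complex.continuous_ofReal.comp continuous_fst.snd.snd.snd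
  refine ContinuousOn.prodMk ?_ continuous_fst.snd.snd.snd.continuousOn
  refine V10_cont continuous_fst.fst.continuousOn continuous_fst.snd.fst.continuousOn
    continuous_fst.snd.snd.fst.continuousOn continuous_snd.fst.continuousOn ?_
    continuous_snd.snd.continuousOn ?_ continuousOn_const continuousOn_const continuousOn_const
  · exact ContinuousOn.div (hr.mul (h4.continuous.comp ct)).continuousOn
      continuous_snd.fst.continuousOn (fun q hq => hq.2.1)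
  · exact ContinuousOn.div ((continuous_const.sub hr).mul (h4.continuous.comp ct)).continuousOn
      continuous_snd.snd.continuousOn (fun q hq => hq.2.2)

private theorem cont_p : Continuous P11 := by
  have c : ∀ j : Fin 10, Continuous (fun q : (Fin 10 → ℂ) × ℝ => q.1 j) := fun j =>
    (continuous_apply j).comp continuous_fst
  exact ((c 0).prodMk ((c 1).prodMk ((c 2).prodMk continuous_snd))).prodMk ((c 3).prodMk (c 5))

private theorem step1 (hHEQ : StHEQ) (hQS : StQS) (hKSM : StKSM) (U : Set ℂ) :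
    WE {z | (z ∈ WW U ∧ z 3 ≠ 0) ∧ z 5 ≠ 0} (QU U ×ˢ Z2) F11 := by
  refine hHEQ _ _ _ _ F11 G11 ⟨?_, ?_⟩ ⟨cont_g _, ?_⟩ ?_ ?_
  · exact ((cont_sm hKSM).prodMk ((continuous_apply 3).prodMk (continuous_apply 5))).continuousOn
  · rintro z ⟨⟨h1, h2⟩, h3⟩
    exact ⟨hQS.1 U z h1, h2, h3⟩
  · rintro p ⟨h1, h2⟩
    refine ⟨⟨hQS.2 U _ (ee1_g p) h2.1 h2.2 ?_, h2.1⟩, h2.2⟩
    rw [sm_g p h2]
    exact h1
  · refine ⟨H11, ⟨cont_h hKSM _ (fun z hz => ⟨hz.1.2, hz.2⟩), ?_⟩, fun z _ => h_zero z,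
      fun z hz => h_one z hz.1.2 hz.2 hz.1.1.2.1⟩
    rintro ⟨τ, z⟩ ⟨-, ⟨h1, h2⟩, h3⟩
    refine ⟨⟨hQS.2 U _ (ee1_h τ z h2) h2 h3 ?_, h2⟩, h3⟩
    rw [sm_h τ z h2 h3]
    exact hQS.1 U z h1
  · refine ⟨fun q => q.2, ⟨continuous_snd.continuousOn, fun q hq => hq.2⟩, ?_, fun z _ => rfl⟩
    rintro p ⟨h1, h2⟩
    have e := sm_g p h2
    simp only [Function.comp_apply, F11]
    rw [e]
    rfl

private theorem step2 (hWCG : StWCG) (hKSM : StKSM) (U : Set ℂ) :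
    WE {q | (q ∈ DM (N1 U) (N2 U) ∧ q.1 3 ≠ 0) ∧ q.1 5 ≠ 0} (PU U ×ˢ Z2) P11 := by
  refine hWCG.2.1 _ _ _ _ P11 R11 ⟨cont_p.continuousOn, ?_⟩ ⟨cont_r hKSM _, ?_⟩ ?_ ?_
  · rintro ⟨z, r⟩ ⟨⟨⟨h1, h2, h3, h4⟩, h5⟩, h6⟩
    refine ⟨⟨?_, h1, h2, ?_⟩, h5, h6⟩
    · rcases lt_or_ge r 1 with h | h
      · exact (h3 h).1
      · exact (h4 (lt_of_lt_of_le zero_lt_one h)).1
    · intro h7 h8
      have e1 : nz z = z 5 * z 6 := (h3 h8).2.2.2.2.2
      have e2 : z 6 = 0 := (h4 h7).2.1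
      change nz z = 0
      rw [e1, e2, mul_zero]
  · rintro ⟨⟨a, b, t, r⟩, ρ, σ⟩ ⟨⟨h1, h2, h3, h4⟩, h5, h6⟩
    simp only at h1 h2 h3 h4 h5 h6
    refine ⟨⟨⟨h2, h3, fun h7 => ?_, fun h7 => ?_⟩, h5⟩, h6⟩
    · change r < 1 at h7
      have e0 : (r : ℂ) * nu a b t = 0 := by
        rcases eq_or_lt_of_le h2 with h8 | h8
        · rw [← h8]
          simp
        · rw [h4 h8 h7, mul_zero]
      refine ⟨h1, ?_, rfl, rfl, rfl, ?_⟩
      · change (r : ℂ) * nu a b t / ρ = 0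
        rw [e0, zero_div]
      · change nu a b t = σ * ((1 - (r : ℂ)) * nu a b t / σ)
        rw [mul_div_cancel₀ _ h6, sub_mul, one_mul, e0, sub_zero]
    · change 0 < r at h7
      have e0 : (1 - (r : ℂ)) * nu a b t = 0 := by
        rcases eq_or_lt_of_le h3 with h8 | h8
        · rw [h8]
          simp
        · rw [h4 h7 h8, mul_zero]
      refine ⟨h1, ?_, rfl, rfl, rfl, ?_⟩
      · change (1 - (r : ℂ)) * nu a b t / σ = 0
        rw [e0, zero_div]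
      · change nu a b t = ρ * ((r : ℂ) * nu a b t / ρ)
        rw [mul_div_cancel₀ _ h5]
        linear_combination e0
  · rintro ⟨z, r⟩ ⟨⟨⟨h1, h2, h3, h4⟩, h5⟩, h6⟩
    change 0 ≤ r at h1
    change r ≤ 1 at h2
    change r < 1 → z ∈ N1 U at h3
    change 0 < r → z ∈ N2 U at h4
    have k4 : (r : ℂ) * nz z = z 3 * z 4 := by
      rcases eq_or_lt_of_le h1 with h8 | h8
      · have := (h3 (by rw [← h8]; exact zero_lt_one)).2.1
        rw [← h8, this]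
        simp
      · have e := h4 h8
        rcases eq_or_lt_of_le h2 with h9 | h9
        · rw [h9, e.2.2.2.2.2]
          simp
        · have e' := h3 h9
          rw [e'.2.2.2.2.2, e.2.1, e'.2.1]
          simp
    have k6 : (1 - (r : ℂ)) * nz z = z 5 * z 6 := by
      rcases eq_or_lt_of_le h1 with h8 | h8
      · have := (h3 (by rw [← h8]; exact zero_lt_one)).2.2.2.2.2
        rw [← h8, this]
        simp
      · have e := h4 h8
        rcases eq_or_lt_of_le h2 with h9 | h9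
        · rw [h9, e.2.1]
          simp
        · have e' := h3 h9
          rw [e'.2.2.2.2.2, e.2.1]
          simp
    have k7 : z 7 = 0 ∧ z 8 = 0 ∧ z 9 = 0 := by
      rcases lt_or_ge r 1 with h | h
      · exact ⟨(h3 h).2.2.1, (h3 h).2.2.2.1, (h3 h).2.2.2.2.1⟩
      · have e := h4 (lt_of_lt_of_le zero_lt_one h)
        exact ⟨e.2.2.1, e.2.2.2.1, e.2.2.2.2.1⟩
    refine Prod.ext ?_ rfl
    change V10 (z 0) (z 1) (z 2) (z 3) ((r : ℂ) * nz z / z 3) (z 5)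
      ((1 - (r : ℂ)) * nz z / z 5) 0 0 0 = z
    refine V10_ext rfl rfl rfl rfl ?_ rfl ?_ k7.1.symm k7.2.1.symm k7.2.2.symm
    · rw [k4, mul_div_cancel_left₀ _ h5]
    · rw [k6, mul_div_cancel_left₀ _ h6]
  · rintro ⟨⟨a, b, t, r⟩, ρ, σ⟩ _
    rfl

private theorem step3 (z : Fin 10 → ℂ) (r : ℝ) (U : Set ℂ) (h1 : 0 ≤ r)
    (h3 : r < 1 → z ∈ N1 U) (h4 : 0 < r → z ∈ N2 U) :
    Phi (z 0, z 1, z 2, r) = SM z := by
  rcases eq_or_lt_of_le h1 with h8 | h8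
  · have e := h3 (by rw [← h8]; exact zero_lt_one)
    obtain ⟨-, -, e7, e8, e9, ee⟩ := e
    have ee' : nu (z 0) (z 1) (z 2) = z 5 * z 6 := ee
    rw [Phi, if_pos (le_of_eq h8.symm), SM_eq, e7, e8, e9, ee']
    simp only [mul_zero, add_zero, mul_assoc]
  · obtain ⟨-, e6, e7, e8, e9, -⟩ := h4 h8
    rw [Phi, if_neg (not_le.2 h8), SM_eq, e6, e7, e8, e9]
    simp only [mul_zero, add_zero, zero_mul]

theorem hB11 (hHEQ : StHEQ) (hCMP : StCMP) (hCN2 : StCN2) (hCGR : StCGR) (hPRD : StPRD)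
    (hWCG : StWCG) (hPHI : StPHI) (hQS : StQS) (hKSM : StKSM) (hDMP : StDMP) : StB11 := by
  intro U hU
  have w1 := step1 hHEQ hQS hKSM U
  have w2 := step2 hWCG hKSM U
  have w3 : WE (PU U ×ˢ Z2) (QU U ×ˢ Z2) (fun q : (ℂ × ℂ × ℂ × ℝ) × (ℂ × ℂ) => (Phi q.1, q.2)) :=
    hPRD _ _ _ (PU U) (QU U) Z2 Phi (hPHI U hU)
  have w4 := hCMP _ _ _ _ _ _ _ _ w2 w3
  refine hCN2 _ _ _ _ _ _ Prod.fst F11 ⟨continuous_fst.continuousOn, ?_⟩ w1
    (hCGR _ _ _ _ _ _ ?_ w4)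
  · rintro q ⟨⟨h1, h2⟩, h3⟩
    exact ⟨⟨(hDMP U).1.2 h1, h2⟩, h3⟩
  · rintro ⟨z, r⟩ ⟨⟨⟨h1, h2, h3, h4⟩, h5⟩, h6⟩
    exact Prod.ext (step3 z r U h1 h3 h4) rfl

end

end Pool.Agent.Helper2.FX
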