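import Pool.Agent.Helper84.FX.StX

set_option autoImplicit false

/-!
# Project FX, module H0
-/

namespace Pool.Agent.Helper2.FX

open Set Pool.Agent.Helper84.FX Pool.Agent.Helper72.FX

private def sec12 (z : Fin 10 → ℂ) : Fin 12 → ℂ :=
  ![z 0, z 1, z 2, z 3, z 4, z 5, z 6, z 7, z 8, z 9, 0, 0]

private def hom12 (q : ℝ × (Fin 12 → ℂ)) : Fin 12 → ℂ :=
  ![q.2 0, q.2 1, q.2 2, q.2 3, q.2 4, q.2 5, q.2 6, q.2 7, q.2 8, q.2 9, q.1 * q.2 10, q.1 * q.2 11]

private theorem ff_eq (z : Fin 12 → ℂ) :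
    FF z = EE1 (pr10 z) * z 10 + EE2 (pr10 z) * z 11 - (z 5 - z 3) := rfl

private theorem pr10_sec (z : Fin 10 → ℂ) : pr10 (sec12 z) = z := by
  funext i
  fin_cases i <;> rfl

private theorem pr10_hom (q : ℝ × (Fin 12 → ℂ)) : pr10 (hom12 q) = pr10 q.2 := rfl

private theorem cont_sec : Continuous sec12 := by
  refine continuous_pi fun i => ?_
  fin_cases i
  · exact continuous_apply 0
  · exact continuous_apply 1
  · exact continuous_apply 2
  · exact continuous_apply 3
  · exact continuous_apply 4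
  · exact continuous_apply 5
  · exact continuous_apply 6
  · exact continuous_apply 7
  · exact continuous_apply 8
  · exact continuous_apply 9
  · exact continuous_const
  · exact continuous_const

private theorem cont_pr : Continuous pr10 := by
  refine continuous_pi fun i => ?_
  fin_cases i
  · exact continuous_apply 0
  · exact continuous_apply 1
  · exact continuous_apply 2
  · exact continuous_apply 3
  · exact continuous_apply 4
  · exact continuous_apply 5
  · exact continuous_apply 6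
  · exact continuous_apply 7
  · exact continuous_apply 8
  · exact continuous_apply 9

private theorem cont_hom : Continuous hom12 := by
  have h : ∀ j : Fin 12, Continuous (fun q : ℝ × (Fin 12 → ℂ) => q.2 j) := fun j =>
    (continuous_apply j).comp continuous_snd
  have hs : Continuous (fun q : ℝ × (Fin 12 → ℂ) => (q.1 : ℂ)) :=
    Complex.continuous_ofReal.comp continuous_fst
  refine continuous_pi fun i => ?_
  fin_cases i
  · exact h 0
  · exact h 1
  · exact h 2
  · exact h 3
  · exact h 4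
  · exact h 5
  · exact h 6
  · exact h 7
  · exact h 8
  · exact h 9
  · exact hs.mul (h 10)
  · exact hs.mul (h 11)

theorem hH0 (hHEQ : StHEQ) (hT5 : StT5) (hCMP : StCMP) (_hCGR : StCGR) : StH0 := by
  intro U hU
  have e2 : {z | z ∈ C10 U ∧ (EE1 z, EE2 z) = 0} = WW U := by
    ext z
    constructor
    · rintro ⟨h1, h2⟩
      rw [Prod.mk_eq_zero] at h2
      exact ⟨h1, h2.1, h2.2⟩
    · rintro ⟨h1, h2, h3⟩
      exact ⟨h1, Prod.mk_eq_zero.2 ⟨h2, h3⟩⟩
  rw [e2]
  have w1 : WE {z | z ∈ HH U ∧ (EE1 (pr10 z), EE2 (pr10 z)) = 0} (WG U) pr10 := by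
    refine hHEQ _ _ _ _ pr10 sec12 ⟨cont_pr.continuousOn, ?_⟩ ⟨cont_sec.continuousOn, ?_⟩ ?_ ?_
    · rintro z ⟨⟨h1, h2⟩, h3⟩
      rw [Prod.mk_eq_zero] at h3
      rw [ff_eq, h3.1, h3.2, zero_mul, zero_mul, zero_add, zero_sub, neg_eq_zero, sub_eq_zero] at h2
      exact ⟨⟨h1, h3.1, h3.2⟩, h2⟩
    · rintro z ⟨⟨h1, h2, h3⟩, h4⟩
      refine ⟨⟨h1, ?_⟩, ?_⟩
      · rw [ff_eq, pr10_sec, h2, h3, zero_mul, zero_mul, zero_add, zero_sub, neg_eq_zero, sub_eq_zero]
        exact h4
      · rw [pr10_sec]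
        exact Prod.mk_eq_zero.2 ⟨h2, h3⟩
    · refine ⟨hom12, ⟨cont_hom.continuousOn, ?_⟩, ?_, ?_⟩
      · rintro ⟨s, z⟩ ⟨hs, ⟨h1, h2⟩, h3⟩
        have h3' := h3
        rw [Prod.mk_eq_zero] at h3'
        refine ⟨⟨h1, ?_⟩, ?_⟩
        · rw [ff_eq, h3'.1, h3'.2, zero_mul, zero_mul] at h2
          rw [ff_eq, pr10_hom, h3'.1, h3'.2, zero_mul, zero_mul]
          exact h2
        · rw [pr10_hom]
          exact h3
      · intro z _
        funext i
        fin_cases i <;> simp [hom12, sec12, pr10, Function.comp]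
      · intro z _
        funext i
        fin_cases i <;> simp [hom12]
    · refine ⟨fun q => q.2, ⟨continuous_snd.continuousOn, fun q hq => hq.2⟩, ?_, fun z _ => rfl⟩
      intro z _
      exact (pr10_sec z).symm
  exact hCMP _ _ _ _ _ _ pr10 id w1 (hT5 U hU)

end Pool.Agent.Helper2.FX
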