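import Pool.Agent.Helper84.FX.StT

set_option autoImplicit false

/-!
# Project FX, module HEQ
-/

namespace Pool.Agent.Helper2.FX

open Set Pool.Agent.Helper84.FX

theorem mp_comp {E F G : Type} [TopologicalSpace E] [TopologicalSpace F] [TopologicalSpace G]
    {A : Set E} {B : Set F} {C : Set G} {f : E → F} {g : F → G} (hg : Mp B C g) (hf : Mp A B f) :
    Mp A C (g ∘ f) :=
  ⟨hg.1.comp hf.1 hf.2, hg.2.comp hf.2⟩

theorem mp_snd {F : Type} [TopologicalSpace F] {n : ℕ} {Y : Set F} {b : (Fin n → ℝ) → F}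
    (hb : Mp (Cb n) Y b) : Mp (II ×ˢ Cb n) Y (fun q : ℝ × (Fin n → ℝ) => b q.2) :=
  mp_comp hb ⟨continuous_snd.continuousOn, fun _ hq => hq.2⟩

theorem we_id {E : Type} [TopologicalSpace E] (X : Set E) : WE X X id := by
  refine ⟨⟨continuous_id.continuousOn, fun x hx => hx⟩, fun n a b ha hb hab => ?_⟩
  exact ⟨b, fun q => b q.2, hb, fun u hu => hab u hu, mp_snd hb, fun u _ => rfl, fun u _ => rfl,
    fun s _ u _ => rfl⟩

theorem htp_symm {E F : Type} [TopologicalSpace E] [TopologicalSpace F] {X : Set E} {Y : Set F}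
    {f g : E → F} (h : Htp X Y f g) : Htp X Y g f := by
  obtain ⟨H, hH, h0, h1⟩ := h
  refine ⟨fun q => H (1 - q.1, q.2), ?_, ?_, ?_⟩
  · refine mp_comp (g := H) (f := fun q : ℝ × E => (1 - q.1, q.2)) hH ⟨?_, ?_⟩
    · exact ((continuous_const.sub continuous_fst).prodMk continuous_snd).continuousOn
    · rintro ⟨s, x⟩ ⟨hs, hx⟩
      refine ⟨⟨?_, ?_⟩, hx⟩
      · have := hs.2
        simp only
        linarith
      · have := hs.1
        simp only
        linarith
  · intro x hx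
    simp only [sub_zero]
    exact h1 x hx
  · intro x hx
    simp only [sub_self]
    exact h0 x hx

theorem hHEQ (hHTP : StHTP) (hINJ : StINJ) : StHEQ := by
  intro E F _ _ X Y f g hf hg hgf hfg
  have w1 : WE X X (g ∘ f) :=
    hHTP E E X X id (g ∘ f) (we_id X) (mp_comp hg hf) (htp_symm hgf)
  have w2 : WE Y Y (f ∘ g) :=
    hHTP F F Y Y id (f ∘ g) (we_id Y) (mp_comp hf hg) (htp_symm hfg)
  refine ⟨hf, fun n a b ha hb hab => ?_⟩
  obtain ⟨c, H, hc, hca, hH, hH0, hH1, hHb⟩ := w1.2 n a (g ∘ b) ha (mp_comp hg hb)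
    (fun u hu => by simp only [Function.comp_apply, hab u hu])
  obtain ⟨L, hL, hL0, hL1, hLb⟩ := hINJ F F Y Y (f ∘ g) w2 n b (f ∘ c) (f ∘ H) hb
    (mp_comp hf hc) (fun u hu => by simp only [Function.comp_apply, hab u hu, hca u hu])
    (mp_comp hf hH) (fun u hu => by simp only [Function.comp_apply, hH0 u hu])
    (fun u hu => by simp only [Function.comp_apply, hH1 u hu])
    (fun s hs u hu => by simp only [Function.comp_apply, hHb s hs u hu])
  exact ⟨c, L, hc, hca, hL, hL0, hL1, hLb⟩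

end Pool.Agent.Helper2.FX
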