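import Pool.Agent.Helper2.FX.StG

set_option autoImplicit false

/-!
# Project FX, module TLB
-/

namespace Pool.Agent.Helper2.FX

open Set Metric Pool.Agent.Helper84.FX

theorem hTLB (hTLU : StTLU) (hTLC : StTLC) (hLM : StLM) : StTLB := by
  intro E _ G _ _ M g hP O hO
  obtain ⟨B, tB, A, r, φ, ψ, hr, hg, hφ, hψ, h1, h2⟩ := hP
  -- the pair map
  have hpair : ContinuousOn (fun y => (ψ y, g y)) M := hψ.1.prodMk hg
  refine hTLU E G (M ∩ O) g {O' | IsOpen O' ∧ ((∀ x ∈ (M ∩ O) ∩ O', g x ≠ 0) ∨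
    ∃ (A' : Set B) (r' : ℝ), IsOpen A' ∧ 0 < r' ∧ r' ≤ r ∧
      (M ∩ O) ∩ O' = {x | x ∈ M ∧ ψ x ∈ A' ∧ ‖g x‖ < r'})}
    (hg.mono inter_subset_left) (fun O' h => h.1) ?_ ?_ ?_
  · rintro O₁ ⟨ho1, hb1⟩ O₂ ⟨ho2, hb2⟩
    refine ⟨ho1.inter ho2, ?_⟩
    rcases hb1 with hb1 | ⟨A1, r1, hA1, hr1, hr1', e1⟩
    · left
      intro x hx
      exact hb1 x ⟨hx.1, hx.2.1⟩
    · rcases hb2 with hb2 | ⟨A2, r2, hA2, hr2, hr2', e2⟩
      · left
        intro x hx
        exact hb2 x ⟨hx.1, hx.2.2⟩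
      · right
        refine ⟨A1 ∩ A2, min r1 r2, hA1.inter hA2, lt_min hr1 hr2, (min_le_left _ _).trans hr1', ?_⟩
        have e3 : (M ∩ O) ∩ (O₁ ∩ O₂) = ((M ∩ O) ∩ O₁) ∩ ((M ∩ O) ∩ O₂) := by
          ext x
          simp only [mem_inter_iff]
          tauto
        rw [e3, e1, e2]
        ext x
        simp only [mem_inter_iff, mem_ofPred_eq, lt_min_iff]
        tauto
  · intro x hx
    by_cases hgx : g x = 0
    · have hxM := hx.1
      have hxA : ψ x ∈ A := hψ.2 hxM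
      have hφx : φ (ψ x, 0) = x := by
        have := (h1 x hxM).2
        rwa [hgx] at this
      obtain ⟨P, hPo, hPe⟩ := (_root_.continuousOn_iff'.1 hφ.1) O hO
      have hmem : (ψ x, (0 : G)) ∈ P := by
        have h3 : (ψ x, (0 : G)) ∈ φ ⁻¹' O ∩ A ×ˢ ball (0 : G) r := by
          refine ⟨?_, hxA, mem_ball_self hr⟩
          rw [mem_preimage, hφx]
          exact hx.2
        rw [hPe] at h3
        exact h3.1
      obtain ⟨A', V, hA', hV, haA', h0V, hsub⟩ := isOpen_prod_iff.1 hPo (ψ x) 0 hmem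
      obtain ⟨ε, hε, hεV⟩ := Metric.isOpen_iff.1 hV 0 h0V
      obtain ⟨O', hO', hOe⟩ := (_root_.continuousOn_iff'.1 hpair) (A' ×ˢ ball (0 : G) (min r ε))
        (hA'.prod isOpen_ball)
      have key : (M ∩ O) ∩ O' = {y | y ∈ M ∧ ψ y ∈ A' ∧ ‖g y‖ < min r ε} := by
        ext y
        constructor
        · rintro ⟨⟨hyM, -⟩, hyO'⟩
          have h4 : y ∈ O' ∩ M := ⟨hyO', hyM⟩
          rw [← hOe] at h4
          refine ⟨hyM, h4.1.1, ?_⟩
          have := h4.1.2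
          rwa [mem_ball_zero_iff] at this
        · rintro ⟨hyM, hyA, hyr⟩
          have h4 : y ∈ (fun y => (ψ y, g y)) ⁻¹' (A' ×ˢ ball (0 : G) (min r ε)) ∩ M := by
            refine ⟨⟨hyA, ?_⟩, hyM⟩
            rw [mem_ball_zero_iff]
            exact hyr
          rw [hOe] at h4
          refine ⟨⟨hyM, ?_⟩, h4.1⟩
          have h5 : (ψ y, g y) ∈ P ∩ A ×ˢ ball (0 : G) r := by
            refine ⟨hsub ⟨hyA, hεV ?_⟩, hψ.2 hyM, ?_⟩
            · rw [mem_ball_zero_iff]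
              exact hyr.trans_le (min_le_right _ _)
            · rw [mem_ball_zero_iff]
              exact hyr.trans_le (min_le_left _ _)
          rw [← hPe] at h5
          have h6 := h5.1
          rw [mem_preimage, (h1 y hyM).2] at h6
          exact h6
      refine ⟨O', ⟨hO', Or.inr ⟨A', min r ε, hA', lt_min hr hε, min_le_left _ _, key⟩⟩, ?_⟩
      have h7 : x ∈ (M ∩ O) ∩ O' := by
        rw [key]
        refine ⟨hxM, haA', ?_⟩
        rw [hgx, norm_zero]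
        exact lt_min hr hε
      exact h7.2
    · obtain ⟨O', hO', hOe⟩ := (_root_.continuousOn_iff'.1 hg) {(0 : G)}ᶜ isOpen_compl_singleton
      refine ⟨O', ⟨hO', Or.inl ?_⟩, ?_⟩
      · rintro y ⟨⟨hyM, -⟩, hyO'⟩
        have h4 : y ∈ O' ∩ M := ⟨hyO', hyM⟩
        rw [← hOe] at h4
        exact h4.1
      · have h4 : x ∈ g ⁻¹' {(0 : G)}ᶜ ∩ M := ⟨hgx, hx.1⟩
        rw [hOe] at h4
        exact h4.1
  · rintro O' ⟨hO', hb | ⟨A', r', hA', hr', hrr', e⟩⟩
    · exact hTLC.1 E G _ g (hg.mono (inter_subset_left.trans inter_subset_left)) hb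
    · rw [e]
      have hM' : ContinuousOn (fun x : B × G => x.2) ((A ∩ A') ×ˢ ball (0 : G) r') :=
        continuous_snd.continuousOn
      have hsubM : {x | x ∈ M ∧ ψ x ∈ A' ∧ ‖g x‖ < r'} ⊆ M := fun x hx => hx.1
      refine hTLC.2 E (B × G) G _ ((A ∩ A') ×ˢ ball (0 : G) r') g Prod.snd φ (fun y => (ψ y, g y))
        ?_ ?_ ?_ ?_ ?_ ?_
      · refine ⟨hφ.1.mono ?_, ?_⟩
        · exact prod_mono inter_subset_left (ball_subset_ball hrr')
        · rintro ⟨a, v⟩ ⟨ha, hv⟩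
          have hv' : ‖v‖ < r' := by rwa [mem_ball_zero_iff] at hv
          have h3 := h2 a ha.1 v (hv'.trans_le hrr')
          refine ⟨hφ.2 ⟨ha.1, ?_⟩, ?_, ?_⟩
          · rw [mem_ball_zero_iff]
            exact hv'.trans_le hrr'
          · rw [h3.1]
            exact ha.2
          · rw [h3.2]
            exact hv'
      · refine ⟨hpair.mono hsubM, ?_⟩
        rintro x ⟨hxM, hxA, hxr⟩
        refine ⟨⟨hψ.2 hxM, hxA⟩, ?_⟩
        rw [mem_ball_zero_iff]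
        exact hxr
      · rintro ⟨a, v⟩ ⟨ha, hv⟩
        have hv' : ‖v‖ < r' := by rwa [mem_ball_zero_iff] at hv
        have h3 := h2 a ha.1 v (hv'.trans_le hrr')
        exact Prod.ext h3.1 h3.2
      · rintro x ⟨hxM, -, -⟩
        exact (h1 x hxM).2
      · rintro ⟨a, v⟩ ⟨ha, hv⟩
        have hv' : ‖v‖ < r' := by rwa [mem_ball_zero_iff] at hv
        exact (h2 a ha.1 v (hv'.trans_le hrr')).2
      · obtain ⟨w1, w2⟩ := hLM B G (A ∩ A') r' hr'
        exact ⟨hM', w1, w2⟩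

end Pool.Agent.Helper2.FX
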