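import Pool.Agent.Helper84.FX.StT

/-!
# Project FX, chapter T: local to global (T2), tameness and the gluing theorem (T3)

Continuation of `Pool.Agent.Helper84.FX.StT` (spaces are sets, `Mp`, `WE`, `Htp`, `WC` as there).
Module `XXX` proves `hXXX : StXXX` from earlier statements of this file and of `StT` (give them as
hypotheses or import the modules that prove them).
-/

set_option autoImplicit false

namespace Pool.Agent.Helper2.FX

open Set Metric Pool.Agent.Helper84.FX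

/-- LGI.  Local to global for an open cover closed under intersections.
PROOF from GLU and WCG (4).
(1) For every finite set (or list) of members `O₁, ..., O_m` of `U` with union `O`:
`WE (X ∩ f ⁻¹' O) (Y ∩ O) f`.  Induction on `m` (all lists of length `m`).  `m = 0`: both sets are
empty, WCG (4).  Step: `O = P ∪ Q`, `P` the union of the first `m` members, `Q` the last one;
`P ∩ Q` is the union of the `m` members `O_i ∩ Q`.  GLU for `X ∩ f ⁻¹' O`, `Y ∩ O`, `V₁ = P`,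
`V₂ = Q`, and open `U₁, U₂` with `f ⁻¹' P ∩ X = U₁ ∩ X`, `f ⁻¹' Q ∩ X = U₂ ∩ X`
(`continuousOn_iff'`).  The three hypotheses are, up to rewriting the sets, the induction hypothesis
for `P`, the hypothesis for `Q`, the induction hypothesis for `P ∩ Q`.
(2) Let `n, a, b` be given.  `b '' (Cb n)` is compact (`Cb n` is compact) and contained in `⋃₀ U`:
finitely many members cover it, let `O` be their union.  `b` maps `Cb n` to `Y ∩ O` and `a` maps
`Bd n` to `X ∩ f ⁻¹' O` since `f (a u) = b u`.  Use (1). -/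
def StLGI : Prop := ∀ (E F : Type) [TopologicalSpace E] [TopologicalSpace F] (X : Set E) (Y : Set F)
    (f : E → F) (U : Set (Set F)), Mp X Y f → (∀ O ∈ U, IsOpen O) →
    (∀ O ∈ U, ∀ O' ∈ U, O ∩ O' ∈ U) → Y ⊆ ⋃₀ U →
    (∀ O ∈ U, WE (X ∩ f ⁻¹' O) (Y ∩ O) f) → WE X Y f

section

variable {E : Type} [TopologicalSpace E] {G : Type} [NormedAddCommGroup G]

/-- The points `x` of `M` with a vector `v` of the unit ball such that `g x = ‖g x‖ v`: over a point
with `g x ≠ 0` there is one such `v`, over a zero of `g` the whole unit ball. -/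
def TT [NormedSpace ℝ G] (M : Set E) (g : E → G) : Set (E × G) :=
  {q | q.1 ∈ M ∧ ‖q.2‖ ≤ 1 ∧ g q.1 = ‖g q.1‖ • q.2}

/-- The section over the points with `g x ≠ 0`. -/
noncomputable def sg [NormedSpace ℝ G] (g : E → G) (x : E) : E × G := (x, ‖g x‖⁻¹ • g x)

/-- Tameness of a function `g` on `M`. -/
def Tame [NormedSpace ℝ G] (M : Set E) (g : E → G) : Prop :=
  ContinuousOn g M ∧ WE (TT M g) M Prod.fst ∧
    WE (M ∩ {x | g x ≠ 0}) (TT M g ∩ {q | q.2 ≠ 0}) (sg g)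

/-- `M` is a product `A × ball` with `g` the second coordinate. -/
def PCh (M : Set E) (g : E → G) : Prop :=
  ∃ (B : Type) (_ : TopologicalSpace B) (A : Set B) (r : ℝ) (φ : B × G → E) (ψ : E → B),
    0 < r ∧ ContinuousOn g M ∧ Mp (A ×ˢ ball (0 : G) r) M φ ∧ Mp M A ψ ∧
    (∀ x ∈ M, ‖g x‖ < r ∧ φ (ψ x, g x) = x) ∧
    ∀ a ∈ A, ∀ v : G, ‖v‖ < r → ψ (φ (a, v)) = a ∧ g (φ (a, v)) = v

/-- Locally near the zeros of `g`, `M` is a product with `g` the second coordinate. -/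
def LPr (M : Set E) (g : E → G) : Prop :=
  ContinuousOn g M ∧ ∀ z ∈ M, g z = 0 → ∃ W : Set E, IsOpen W ∧ z ∈ W ∧ PCh (M ∩ W) g

/-- The double mapping cylinder of `N₁ ← N₃ → N₂` (inclusions): `N₁` at time `0`, `N₃` at the times
between, `N₂` at time `1`. -/
def DM (N₁ N₃ N₂ : Set E) : Set (ℝ × E) :=
  {q | 0 ≤ q.1 ∧ q.1 ≤ 1 ∧ (q.1 = 0 → q.2 ∈ N₁) ∧ (q.1 = 1 → q.2 ∈ N₂) ∧
    (0 < q.1 → q.1 < 1 → q.2 ∈ N₃)}

end

/-- LM.  The local model: `M = A × ball`, `g` the second coordinate.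
PROOF.  Points of `TT M Prod.snd` are `((a, y), v)` with `a ∈ A`, `‖y‖ < r`, `‖v‖ ≤ 1`, `y = ‖y‖ v`.
(1) HEQ with inverse `(a, y) ↦ ((a, 0), 0)`.  Homotopy on `TT` from `((a, 0), 0)` (time 0) to the
identity (time 1): `((a, λ y), μ v)`, `λ = max 0 (2 s - 1)`, `μ = min 1 (2 s)` (if `λ > 0` then
`μ = 1`, so `λ y = ‖λ y‖ μ v` holds in all cases; `λ, μ` are in `[0, 1]`).  Homotopy on `A × ball`:
`(a, s y)`.
(2) HEQ with inverse `((a, y), v) ↦ (a, ((‖y‖ + r) / 2) e)`, `e = ‖v‖⁻¹ v` (norm 1; so the second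
coordinate has norm `(‖y‖ + r)/2` in `(0, r)`).  Homotopy on `A × (ball minus 0)`: at time `s` the
point `(a, ((1 - s) (‖y‖ + r) / 2 + s ‖y‖) ‖y‖⁻¹ y)`.  Homotopy on the target from the composition
(time 0) to the identity (time 1): `((a, ρ e), τ e)` with
`ρ = ‖y‖ + max 0 (1 - 2 s) (r - ‖y‖) / 2`, `τ = ‖v‖ + min 1 (2 - 2 s) (1 - ‖v‖)`.  If `ρ > 0` then
`τ = 1`: if `y ≠ 0` then `‖v‖ = 1` (from `y = ‖y‖ v`), and if `y = 0` then `s < 1/2`; `0 < τ ≤ 1`,
`0 ≤ ρ < r`; at `s = 1` it is `((a, ‖y‖ e), ‖v‖ e) = ((a, y), v)`. -/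
def StLM : Prop := ∀ (B : Type) [TopologicalSpace B] (G : Type) [NormedAddCommGroup G]
    [NormedSpace ℝ G] (A : Set B) (r : ℝ), 0 < r →
    WE (TT (A ×ˢ ball (0 : G) r) Prod.snd) (A ×ˢ ball (0 : G) r) Prod.fst ∧
    WE ((A ×ˢ ball (0 : G) r) ∩ {x | x.2 ≠ 0})
      (TT (A ×ˢ ball (0 : G) r) Prod.snd ∩ {q | q.2 ≠ 0}) (sg (fun x : B × G => x.2))

/-- TLC.  The case without zeros, and transport along a homeomorphism.
PROOF.  (1) If `g` has no zeros on `M` then `TT M g = {(x, ‖g x‖⁻¹ g x) : x ∈ M}`: both maps are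
homeomorphisms (WCG (2)), inverse to each other; here `{g ≠ 0}`, `{v ≠ 0}` are no conditions
(`v = ‖g x‖⁻¹ g x` has norm 1).
(2) Let `φ : M' → M`, `ψ : M → M'` be inverse homeomorphisms with `g ∘ φ = g'` on `M'`.  Then
`(x, v) ↦ (φ x, v)` and `(x, v) ↦ (ψ x, v)` are inverse homeomorphisms of `TT M' g'` and `TT M g`,
and of the parts with `v ≠ 0`; WCG (2), CMP (twice) and `WE.congr` (a map equal to a WE on `X` is a
WE: CMP with the identity, or directly from the definition). -/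
def StTLC : Prop :=
  (∀ (E : Type) [TopologicalSpace E] (G : Type) [NormedAddCommGroup G] [NormedSpace ℝ G]
    (M : Set E) (g : E → G), ContinuousOn g M → (∀ x ∈ M, g x ≠ 0) → Tame M g) ∧
  (∀ (E E' : Type) [TopologicalSpace E] [TopologicalSpace E'] (G : Type) [NormedAddCommGroup G]
    [NormedSpace ℝ G] (M : Set E) (M' : Set E') (g : E → G) (g' : E' → G) (φ : E' → E) (ψ : E → E'),
    Mp M' M φ → Mp M M' ψ → (∀ x ∈ M', ψ (φ x) = x) → (∀ x ∈ M, φ (ψ x) = x) →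
    (∀ x ∈ M', g (φ x) = g' x) → Tame M' g' → Tame M g)

/-- TLU.  Tameness is local: from a family of open sets closed under intersections.
PROOF.  LGI twice.  (a) `f = Prod.fst : TT M g → M` with the family `U`:
`TT M g ∩ Prod.fst ⁻¹' O = TT (M ∩ O) g`.  (b) `f = sg g` on `M ∩ {g ≠ 0}` with the family of the
`Prod.fst ⁻¹' O`, `O ∈ U`: `(M ∩ {g ≠ 0}) ∩ sg g ⁻¹' (Prod.fst ⁻¹' O) = (M ∩ O) ∩ {g ≠ 0}` and
`(TT M g ∩ {v ≠ 0}) ∩ Prod.fst ⁻¹' O = TT (M ∩ O) g ∩ {v ≠ 0}`.  `Mp` of `sg g`: `g ≠ 0` is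
continuous, and `g x = ‖g x‖ (‖g x‖⁻¹ g x)`, the vector has norm 1 so it is not 0. -/
def StTLU : Prop := ∀ (E : Type) [TopologicalSpace E] (G : Type) [NormedAddCommGroup G]
    [NormedSpace ℝ G] (M : Set E) (g : E → G) (U : Set (Set E)), ContinuousOn g M →
    (∀ O ∈ U, IsOpen O) → (∀ O ∈ U, ∀ O' ∈ U, O ∩ O' ∈ U) → M ⊆ ⋃₀ U →
    (∀ O ∈ U, Tame (M ∩ O) g) → Tame M g

/-- TLB.  Every open part of a product chart is tame.
PROOF.  Let `B, A, r, φ, ψ` be the chart of `PCh M g` and `O` open.  TLU for the set `M ∩ O` and the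
family `U` of all open `O' ⊆ E` such that either `g ≠ 0` on `(M ∩ O) ∩ O'`, or
(box) there are an open `A' ⊆ B` and `0 < r' ≤ r` with
`(M ∩ O) ∩ O' = {x ∈ M : ψ x ∈ A', ‖g x‖ < r'}`.
Closed under intersections: box with `A', r'` and box with `A'', r''` give the box with
`A' ∩ A''`, `min r' r''`; the other cases have no zeros.  Cover: let `x ∈ M ∩ O`.  If `g x ≠ 0`
take an open `O'` with `g ⁻¹' {0}ᶜ ∩ M = O' ∩ M` (`continuousOn_iff'`).  If `g x = 0`,
`x = φ (ψ x, 0)`; by continuity of `φ` at `(ψ x, 0)` in `A × ball` and openness of `O` there are an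
open `A' ∋ ψ x` and `0 < r' ≤ r` with `φ ((A' ∩ A) × ball r') ⊆ O`; the set
`{y ∈ M : ψ y ∈ A', ‖g y‖ < r'}` is contained in `O` (as `y = φ (ψ y, g y)`) and it is
`M ∩ O'` for an open `O'` (`ψ`, `g` continuous on `M`).
Tameness of the members: no zeros: TLC (1).  Box: TLC (2) with `M' = (A ∩ A') × ball r'`,
`g' = Prod.snd`, `φ`, `ψ' = (ψ, g)`, and LM for `M'` (`ContinuousOn` of `Prod.snd` is clear). -/
def StTLB : Prop := ∀ (E : Type) [TopologicalSpace E] (G : Type) [NormedAddCommGroup G]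
    [NormedSpace ℝ G] (M : Set E) (g : E → G), PCh M g → ∀ O : Set E, IsOpen O → Tame (M ∩ O) g

/-- TLP.  Local products are tame.
PROOF.  TLU for `M` and the family of all open `O` such that `g ≠ 0` on `M ∩ O` or
`O ⊆ W` for some open `W` with `PCh (M ∩ W) g`: closed under intersections; cover: a point with
`g z = 0` is in such a `W` by `LPr`, a point with `g z ≠ 0` is in an open `O` with
`g ⁻¹' {0}ᶜ ∩ M = O ∩ M` (`continuousOn_iff'`).  Members: TLC (1), and TLB for `M ∩ W` and `O`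
(`(M ∩ W) ∩ O = M ∩ O`). -/
def StTLP : Prop := ∀ (E : Type) [TopologicalSpace E] (G : Type) [NormedAddCommGroup G]
    [NormedSpace ℝ G] (M : Set E) (g : E → G), LPr M g → Tame M g

/-- IMP.  Submersions are local products.  `M = {x ∈ Ω : h x = 0}`.
PROOF.  Let `z ∈ Ω`, `h z = 0`, `g z = 0`, `L` the strict derivative of `f x = (h x, g x)` at `z`,
surjective.  `e = HasStrictFDerivAt.implicitToOpenPartialHomeomorph f L hf hf' :
OpenPartialHomeomorph E ((F × G) × ker L)`, `z ∈ e.source`, `(e x).1 = f x`.  The set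
`e.target ∩ e.symm ⁻¹' Ω` is a neighbourhood of `e z = ((0, 0), k₀)` (`e.symm` is continuous at
`e z`, `Ω` is open); it contains a box `(ball 0 ε × ball 0 ε) × ball k₀ ε`.  Let
`W = {x ∈ e.source : e x in this box}` (open, contains `z`), `B = ker L`, `A = ball k₀ ε`, `r = ε`,
`φ (a, v) = e.symm ((0, v), a)`, `ψ x = (e x).2`.  For `x ∈ M ∩ W`: `e x = ((0, g x), ψ x)`, so
`φ (ψ x, g x) = x`; for `a ∈ A`, `‖v‖ < ε`: `y = φ (a, v)` is in `e.source`, `e y = ((0, v), a)`,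
`h y = 0`, `g y = v`, `y ∈ Ω`, `y ∈ W`. -/
def StIMP : Prop := ∀ (E F G : Type) [NormedAddCommGroup E] [NormedSpace ℂ E]
    [FiniteDimensional ℂ E] [NormedAddCommGroup F] [NormedSpace ℂ F] [FiniteDimensional ℂ F]
    [NormedAddCommGroup G] [NormedSpace ℂ G] [FiniteDimensional ℂ G] (Ω : Set E) (h : E → F)
    (g : E → G), IsOpen Ω → ContinuousOn h Ω → ContinuousOn g Ω →
    (∀ z ∈ Ω, h z = 0 → g z = 0 → ∃ L : E →L[ℂ] (F × G),
      HasStrictFDerivAt (fun x => (h x, g x)) L z ∧ Function.Surjective L) →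
    LPr {x | x ∈ Ω ∧ h x = 0} g

/-- GLG.  The gluing theorem for tame functions.
PROOF.  Let `T f (x, v) = (f x, v)`: it maps `TT N (g ∘ f)` to `TT M g` (continuous).
GLU for `T f` with the open sets `{v ≠ 0}` and `{‖v‖ < 1}` (upstairs and downstairs); they cover.
(a) `v ≠ 0`: `T f ∘ sg (g ∘ f) = sg g ∘ f` on `N ∩ {g f ≠ 0}`; `sg g ∘ f` is WE (CMP, hypothesis and
`Tame M g`), `sg (g ∘ f)` is WE, so `T f` is WE by CN3 on the parts with `v ≠ 0`.
(b) `‖v‖ < 1`: `g x = ‖g x‖ v` gives `‖g x‖ = ‖g x‖ ‖v‖`, so `g x = 0`; so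
`TT M g ∩ {‖v‖ < 1} = (M ∩ {g = 0}) × ball 0 1`, the same for `N`; PRD.
(c) both: `(M ∩ {g = 0}) × (ball 0 1 minus 0)`; PRD.
So `T f : TT N (g ∘ f) → TT M g` is WE.  `Prod.fst ∘ T f = f ∘ Prod.fst`: the left side is WE (CMP
with `Tame M g`), `Prod.fst` on `TT N (g ∘ f)` is WE, so `f` is WE by CN3. -/
def StGLG : Prop := ∀ (E E' : Type) [TopologicalSpace E] [TopologicalSpace E'] (G : Type)
    [NormedAddCommGroup G] [NormedSpace ℝ G] (N : Set E) (M : Set E') (f : E → E') (g : E' → G),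
    Mp N M f → Tame M g → Tame N (g ∘ f) →
    WE (N ∩ {x | g (f x) = 0}) (M ∩ {y | g y = 0}) f →
    WE (N ∩ {x | g (f x) ≠ 0}) (M ∩ {y | g y ≠ 0}) f → WE N M f

/-- DMF.  The double mapping cylinder preserves weak equivalences; its two ends.
PROOF.  Let `D = DM N₁ N₃ N₂`.  (1) `x ↦ (0, x)` from `N₁` to `D ∩ {r < 1}` is WE: HEQ with inverse
`Prod.snd` (it maps to `N₁` since `N₃ ⊆ N₁`) and homotopy `(s r, x)` (from `(0, x)` to the identity;
for `r > 0` and `s r > 0` we have `x ∈ N₃`; for `s r = 0`, `x ∈ N₁`).  (2) the same at the other end: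
`x ↦ (1, x)`, homotopy `(1 - s (1 - r), x)`.  (3) GLU for `(r, x) ↦ (r, f x)` with `{r < 1}`,
`{0 < r}`.  On `{r < 1}`: the square with (1) for both cylinders commutes, so WE by CN3 and CMP.
On `{0 < r}` the same with (2).  On the intersection: the sets are `Ioo 0 1 ×ˢ N₃` and
`Ioo 0 1 ×ˢ N₃'`, use PRD (and swap the factors by a homeomorphism, WCG (2), CMP). -/
def StDMF : Prop := ∀ (E E' : Type) [TopologicalSpace E] [TopologicalSpace E']
    (N₁ N₃ N₂ : Set E) (N₁' N₃' N₂' : Set E') (f : E → E'), N₃ ⊆ N₁ → N₃ ⊆ N₂ →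
    N₃' ⊆ N₁' → N₃' ⊆ N₂' →
    WE N₁ N₁' f → WE N₃ N₃' f → WE N₂ N₂' f →
    Mp (DM N₁ N₃ N₂) (DM N₁' N₃' N₂') (fun q => (q.1, f q.2)) →
    WE (DM N₁ N₃ N₂) (DM N₁' N₃' N₂') (fun q => (q.1, f q.2))

/-- DMT.  The double mapping cylinder of tame functions is tame.
PROOF.  (a) `TT (DM N₁ N₃ N₂) (g ∘ Prod.snd)` is homeomorphic by `((r, x), v) ↦ (r, (x, v))` to
`DM (TT N₁ g) (TT N₃ g) (TT N₂ g)`; DMF with `f = Prod.fst` (WCG (2), CMP).
(b) `DM N₁ N₃ N₂ ∩ {g ≠ 0} = DM (N₁ ∩ {g ≠ 0}) (N₃ ∩ {g ≠ 0}) (N₂ ∩ {g ≠ 0})`, and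
`TT (DM ..) (g ∘ Prod.snd) ∩ {v ≠ 0}` corresponds to `DM (TT N₁ g ∩ {v ≠ 0}) ..`; DMF with
`f = sg g`.  Continuity hypotheses of DMF: the map `sg g` is continuous on `N₁ ∪ N₂` minus the
zeros, because `g` is continuous on `N₁ ∪ N₂` (hypothesis). -/
def StDMT : Prop := ∀ (E : Type) [TopologicalSpace E] (G : Type) [NormedAddCommGroup G]
    [NormedSpace ℝ G] (N₁ N₃ N₂ : Set E) (g : E → G), N₃ ⊆ N₁ → N₃ ⊆ N₂ →
    ContinuousOn g (N₁ ∪ N₂) → Tame N₁ g → Tame N₃ g → Tame N₂ g →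
    Tame (DM N₁ N₃ N₂) (fun q => g q.2)

end Pool.Agent.Helper2.FX
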