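import Pool.Agent.Helper84.FX.StG
import Pool.Agent.Helper2.FX.StG
import Pool.Agent.Helper2.FX.M_TLB
import Pool.Agent.Helper91.FX.M_IMP
import Pool.Agent.Helper30.FX.M_TLP
import Pool.Agent.Helper57.FX.M_TLU
import Pool.Agent.Helper22.FX.M_LGI

set_option autoImplicit false

/-!
# Project FX: the statements `StLGI` and `StTMC` of Helper84 from the ones of Helper2
-/

namespace Pool.Agent.Helper2.FX

open Set Metric

/-- The real version of `StIMP`. -/
def StIMPR : Prop := ∀ (E F G : Type) [NormedAddCommGroup E] [NormedSpace ℝ E]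
    [FiniteDimensional ℝ E] [NormedAddCommGroup F] [NormedSpace ℝ F] [FiniteDimensional ℝ F]
    [NormedAddCommGroup G] [NormedSpace ℝ G] [FiniteDimensional ℝ G] (Ω : Set E) (h : E → F)
    (g : E → G), IsOpen Ω → ContinuousOn h Ω → ContinuousOn g Ω →
    (∀ z ∈ Ω, h z = 0 → g z = 0 → ∃ L : E →L[ℝ] (F × G),
      HasStrictFDerivAt (fun x => (h x, g x)) L z ∧ Function.Surjective L) →
    LPr {x | x ∈ Ω ∧ h x = 0} g

theorem lgi84 (hLGI : StLGI) : Pool.Agent.Helper84.FX.StLGI := by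
  intro E F _ _ X Y f U hf ho hi hc hw
  exact hLGI E F X Y f U hf ho hi (fun y hy => hc y hy) (fun O hO => hw O hO)

theorem tame84 {E G : Type} [TopologicalSpace E] [NormedAddCommGroup G] [NormedSpace ℝ G]
    {M : Set E} {g : E → G} (h : Tame M g) : Pool.Agent.Helper84.FX.Tame M g := h

theorem tame84' {E G : Type} [TopologicalSpace E] [NormedAddCommGroup G] [NormedSpace ℝ G]
    {M : Set E} {g : E → G} (h : Pool.Agent.Helper84.FX.Tame M g) : Tame M g := h

theorem tmc84 (hTLP : StTLP) (hIMPR : StIMPR) : Pool.Agent.Helper84.FX.StTMC := by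
  intro E V V' _ _ _ _ _ _ _ _ _ Ω e g hΩ he hg hs
  refine tame84 (hTLP E V _ g (hIMPR E V' V Ω e g hΩ he.continuousOn hg.continuousOn ?_))
  intro z hz hez hgz
  refine ⟨fderiv ℝ (fun y => (e y, g y)) z, ?_, hs z hz hez hgz⟩
  have h1 : ContDiffAt ℝ 1 (fun y => (e y, g y)) z :=
    (he.prodMk hg).contDiffAt (hΩ.mem_nhds hz)
  exact h1.hasStrictFDerivAt one_ne_zero

theorem hIMPR : StIMPR := by
  intro E F G _ _ _ _ _ _ _ _ _ Ω h g
  exact Pool.Agent.Helper91.FX.hIMPk ℝ E F G Ω h g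

/-- helper84's local to global statement. -/
theorem hLGI84 (hGLU : Pool.Agent.Helper84.FX.StGLU) (hWCG : Pool.Agent.Helper84.FX.StWCG) :
    Pool.Agent.Helper84.FX.StLGI :=
  lgi84 (Pool.Agent.Helper22.FX.hLGI hGLU hWCG)

/-- helper84's statement TMC. -/
theorem hTMC (hLM : StLM) (hTLC : StTLC) (hGLU : Pool.Agent.Helper84.FX.StGLU)
    (hWCG : Pool.Agent.Helper84.FX.StWCG) : Pool.Agent.Helper84.FX.StTMC := by
  have h1 := Pool.Agent.Helper57.FX.hTLU (Pool.Agent.Helper22.FX.hLGI hGLU hWCG)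
  exact tmc84 (Pool.Agent.Helper30.FX.hTLP hTLC h1 (hTLB h1 hTLC hLM)) hIMPR

end Pool.Agent.Helper2.FX
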