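import Pool.Agent.Helper2.FX.M_HEQ

set_option autoImplicit false

/-!
# Project FX, module WCG
-/

namespace Pool.Agent.Helper2.FX

open Set Pool.Agent.Helper84.FX

theorem hWCG (hGLU : StGLU) (hHEQ' : StHEQ) (_hCMP : StCMP) (_hCN2 : StCN2) : StWCG := by
  refine ⟨?_, ?_, ?_, ?_⟩
  · intro E _ X U₁ U₂ h1 h2 hX w1 w2 w3
    obtain ⟨x, hx⟩ := w1.1
    refine ⟨⟨x, hx.1⟩, ?_⟩
    refine hGLU E Unit X univ (fun _ => ()) U₁ U₂ univ univ h1 h2 isOpen_univ isOpen_univ hX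
      (by simp) ?_ ?_ ?_
    · rw [univ_inter]
      exact w1.2
    · rw [univ_inter]
      exact w2.2
    · rw [univ_inter, univ_inter]
      exact w3.2
  · intro E F _ _ X Y f g hf hg hgf hfg
    refine hHEQ' E F X Y f g hf hg ?_ ?_
    · exact ⟨fun q => q.2, ⟨continuous_snd.continuousOn, fun _ hq => hq.2⟩,
        fun x hx => (hgf x hx).symm, fun x _ => rfl⟩
    · exact ⟨fun q => q.2, ⟨continuous_snd.continuousOn, fun _ hq => hq.2⟩,
        fun y hy => (hfg y hy).symm, fun y _ => rfl⟩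
  · intro E _ X U₁ U₂ h1 h2 hX w
    refine hGLU E E (X ∩ U₁) X id U₁ (U₁ ∩ U₂) U₁ U₂ h1 (h1.inter h2) h1 h2
      (fun x hx => Or.inl hx.2) hX ?_ ?_ ?_
    · have e : X ∩ U₁ ∩ U₁ = X ∩ U₁ := by
        ext x
        simp only [mem_inter_iff]
        tauto
      rw [e]
      exact we_id _
    · have e : X ∩ U₁ ∩ (U₁ ∩ U₂) = X ∩ (U₁ ∩ U₂) := by
        ext x
        simp only [mem_inter_iff]
        tauto
      rw [e]
      exact w
    · have e : X ∩ U₁ ∩ (U₁ ∩ (U₁ ∩ U₂)) = X ∩ (U₁ ∩ U₂) := by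
        ext x
        simp only [mem_inter_iff]
        tauto
      rw [e]
      exact we_id _
  · intro E F _ _ f
    refine ⟨⟨continuousOn_empty f, fun x hx => absurd hx (notMem_empty x)⟩, fun n a b _ hb _ => ?_⟩
    have h0 : (fun _ => (0 : ℝ)) ∈ Cb n := fun i => ⟨le_rfl, zero_le_one⟩
    exact absurd (hb.2 h0) (notMem_empty _)

end Pool.Agent.Helper2.FX
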