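import Pool.Agent.Helper84.FX.StT
import Pool.Agent.Helper72.FX.Defs

set_option autoImplicit false

/-!
# Project FX: from `WC` (weakly contractible set) to `WCon` (weakly contractible space)
-/

namespace Pool.Agent.Helper2.FX

open Set Metric Pool.Agent.Helper84.FX

private theorem mem_bd {k : ℕ} {x : Fin k → ℝ} (hx : ‖x‖ = 1) :
    (fun i => (x i + 1) / 2) ∈ Bd k := by
  have h1 : ∀ i, |x i| ≤ 1 := fun i => by
    have := norm_le_pi_norm x i
    rwa [hx, Real.norm_eq_abs] at this
  refine ⟨fun i => ?_, ?_⟩
  · have := abs_le.1 (h1 i)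
    constructor <;> linarith
  · by_contra hcon
    push Not at hcon
    have h2 : ‖x‖ < 1 := by
      rw [pi_norm_lt_iff zero_lt_one]
      intro i
      rw [Real.norm_eq_abs]
      rcases lt_or_eq_of_le (h1 i) with h | h
      · exact h
      · exfalso
        have h3 := hcon i
        rcases abs_eq (zero_le_one) |>.1 h with h4 | h4
        · apply h3.2
          rw [h4]
          norm_num
        · apply h3.1
          rw [h4]
          norm_num
    linarith

private theorem norm_of_bd {k : ℕ} {u : Fin k → ℝ} (hu : u ∈ Bd k) :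
    ‖(fun i => 2 * u i - 1 : Fin k → ℝ)‖ = 1 := by
  obtain ⟨h1, i, hi⟩ := hu
  apply le_antisymm
  · rw [pi_norm_le_iff_of_nonneg zero_le_one]
    intro j
    rw [Real.norm_eq_abs, abs_le]
    have := h1 j
    constructor <;> linarith
  · have h2 := norm_le_pi_norm (fun i => 2 * u i - 1 : Fin k → ℝ) i
    refine le_trans (le_of_eq ?_) h2
    rw [Real.norm_eq_abs]
    rcases hi with hi | hi
    · simp [hi]
    · simp only [hi]
      norm_num

open Classical in
/-- A weakly contractible set is a weakly contractible space. -/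
theorem wcon_of_wc {E : Type} [TopologicalSpace E] (X : Set E) (h : WC X) :
    Pool.Agent.Helper72.FX.WCon X := by
  intro k v hv
  obtain ⟨x0, hx0⟩ := h.1
  have key : ∀ u ∈ Bd k, (fun i => 2 * u i - 1 : Fin k → ℝ) ∈ sphere (0 : Fin k → ℝ) 1 := by
    intro u hu
    rw [mem_sphere_zero_iff_norm]
    exact norm_of_bd hu
  have hA : Mp (Bd k) X (fun u => if hu : (fun i => 2 * u i - 1 : Fin k → ℝ) ∈
      sphere (0 : Fin k → ℝ) 1 then (v ⟨_, hu⟩ : E) else x0) := by
    refine ⟨?_, ?_⟩
    · rw [continuousOn_iff_continuous_domRestrict]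
      have e : (Bd k).domRestrict (fun u => if hu : (fun i => 2 * u i - 1 : Fin k → ℝ) ∈
          sphere (0 : Fin k → ℝ) 1 then (v ⟨_, hu⟩ : E) else x0) =
          fun u : Bd k => (v ⟨fun i => 2 * u.1 i - 1, key u.1 u.2⟩ : E) := by
        funext u
        simp only [domRestrict_apply]
        rw [dif_pos (key u.1 u.2)]
      rw [e]
      refine continuous_subtype_val.comp (hv.comp ?_)
      refine Continuous.subtype_mk ?_ _
      refine continuous_pi fun i => ?_
      exact (continuous_const.mul ((continuous_apply i).comp continuous_subtype_val)).sub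
        continuous_const
    · intro u hu
      simp only
      rw [dif_pos (key u hu)]
      exact (v _).2
  obtain ⟨c, H, hc, hca, -⟩ := h.2.2 k
    (fun u => if hu : (fun i => 2 * u i - 1 : Fin k → ℝ) ∈ sphere (0 : Fin k → ℝ) 1 then
      (v ⟨_, hu⟩ : E) else x0) (fun _ => ()) hA
    ⟨continuous_const.continuousOn, fun _ _ => mem_univ _⟩ (fun u _ => rfl)
  refine ⟨fun x => ⟨c (fun i => (x.1 i + 1) / 2), hc.2 ?_⟩, ?_, ?_⟩
  · intro i
    have h1 := norm_le_pi_norm x.1 i
    have h2 := x.2
    rw [mem_closedBall_zero_iff] at h2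
    have h3 := abs_le.1 (h1.trans h2)
    constructor <;> linarith [h3.1, h3.2]
  · refine Continuous.subtype_mk ?_ _
    refine hc.1.comp_continuous ?_ ?_
    · refine continuous_pi fun i => ?_
      exact (((continuous_apply i).comp continuous_subtype_val).add continuous_const).div_const _
    · intro x i
      have h1 := norm_le_pi_norm x.1 i
      have h2 := x.2
      rw [mem_closedBall_zero_iff] at h2
      have h3 := abs_le.1 (h1.trans h2)
      constructor <;> linarith [h3.1, h3.2]
  · intro x
    have hx : ‖x.1‖ = 1 := by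
      have := x.2
      rwa [mem_sphere_zero_iff_norm] at this
    apply Subtype.ext
    simp only
    rw [hca _ (mem_bd hx)]
    have e : (fun i => 2 * ((x.1 i + 1) / 2) - 1 : Fin k → ℝ) = x.1 := by
      funext i
      ring
    have e2 : (fun i => 2 * ((x.1 i + 1) / 2) - 1 : Fin k → ℝ) ∈ sphere (0 : Fin k → ℝ) 1 := by
      rw [e]
      exact x.2
    rw [dif_pos e2]
    congr 2
    exact Subtype.ext e

end Pool.Agent.Helper2.FX
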